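import Pool.Agent.J4H61.QB.Kmu

set_option autoImplicit false

/-! Piece KK. -/

open Matrix MeasureTheory
open scoped ComplexOrder

namespace Pool.Agent.J4H5.QB
open Pool.Agent.V11219.MomentOp Pool.Agent.J4H61.QB

/-- the monomial -/
noncomputable def mo {d : ℕ} (x : Fin d → ℝ) (m : Fin d → ℕ) : ℝ := ∏ i, x i ^ m i

lemma Al_eq {d : ℕ} (m : Fin d → ℕ) (x : Fin d → ℝ) :
    Al m x = ∑ σ : Equiv.Perm (Fin d), ((Equiv.Perm.sign σ : ℤ) : ℝ) * mo x (fun k => m (σ k)) := by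
  unfold Al mo
  rw [← Matrix.det_transpose, Matrix.det_apply']
  rfl

lemma sum_perm {d : ℕ} (n : ℕ) (σ : Equiv.Perm (Fin d)) (g : (Fin d → ℕ) → ℝ) :
    ∑ m ∈ Finset.piAntidiag Finset.univ n, g (fun k => m (σ k)) =
      ∑ m ∈ Finset.piAntidiag Finset.univ n, g m := by
  refine Finset.sum_bij' (fun m _ => fun k => m (σ k)) (fun m _ => fun k => m (σ.symm k)) ?_ ?_ ?_ ?_ ?_
  · intro m hm
    rw [Finset.mem_piAntidiag] at hm ⊢
    refine ⟨?_, fun i _ => Finset.mem_univ i⟩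
    rw [← hm.1]
    exact Equiv.sum_comp σ m
  · intro m hm
    rw [Finset.mem_piAntidiag] at hm ⊢
    refine ⟨?_, fun i _ => Finset.mem_univ i⟩
    rw [← hm.1]
    exact Equiv.sum_comp σ.symm m
  · intro m _
    funext k
    simp
  · intro m _
    funext k
    simp
  · intro m _
    rfl

lemma antisym {d : ℕ} (n : ℕ) (Φ M : (Fin d → ℕ) → ℝ)
    (hΦ : ∀ (m : Fin d → ℕ) (σ : Equiv.Perm (Fin d)),
      Φ (fun k => m (σ k)) = ((Equiv.Perm.sign σ : ℤ) : ℝ) * Φ m) :
    ∑ m ∈ Finset.piAntidiag Finset.univ n,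
        Φ m * ∑ σ : Equiv.Perm (Fin d), ((Equiv.Perm.sign σ : ℤ) : ℝ) * M (fun k => m (σ k)) =
      (d.factorial : ℝ) * ∑ m ∈ Finset.piAntidiag Finset.univ n, Φ m * M m := by
  have h1 : ∀ σ : Equiv.Perm (Fin d), ∑ m ∈ Finset.piAntidiag Finset.univ n,
      Φ m * (((Equiv.Perm.sign σ : ℤ) : ℝ) * M (fun k => m (σ k))) =
      ∑ m ∈ Finset.piAntidiag Finset.univ n, Φ m * M m := by
    intro σ
    rw [← sum_perm n σ (fun m => Φ m * M m)]
    refine Finset.sum_congr rfl fun m _ => ?_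
    show _ = Φ (fun k => m (σ k)) * M (fun k => m (σ k))
    rw [hΦ m σ]
    ring
  calc ∑ m ∈ Finset.piAntidiag Finset.univ n,
        Φ m * ∑ σ : Equiv.Perm (Fin d), ((Equiv.Perm.sign σ : ℤ) : ℝ) * M (fun k => m (σ k))
      = ∑ m ∈ Finset.piAntidiag Finset.univ n, ∑ σ : Equiv.Perm (Fin d),
        Φ m * (((Equiv.Perm.sign σ : ℤ) : ℝ) * M (fun k => m (σ k))) :=
        Finset.sum_congr rfl fun m _ => Finset.mul_sum _ _ _
    _ = ∑ σ : Equiv.Perm (Fin d), ∑ m ∈ Finset.piAntidiag Finset.univ n,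
        Φ m * (((Equiv.Perm.sign σ : ℤ) : ℝ) * M (fun k => m (σ k))) := Finset.sum_comm
    _ = ∑ _σ : Equiv.Perm (Fin d), ∑ m ∈ Finset.piAntidiag Finset.univ n, Φ m * M m :=
        Finset.sum_congr rfl fun σ _ => h1 σ
    _ = (d.factorial : ℝ) * ∑ m ∈ Finset.piAntidiag Finset.univ n, Φ m * M m := by
        rw [Finset.sum_const, nsmul_eq_mul, Finset.card_univ, Fintype.card_perm, Fintype.card_fin]

lemma fa_perm {d : ℕ} (m : Fin d → ℕ) (σ : Equiv.Perm (Fin d)) : fa (fun k => m (σ k)) = fa m := by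
  unfold fa
  congr 1
  exact Equiv.prod_comp σ (fun i => (m i).factorial)

lemma fa_pos {d : ℕ} (m : Fin d → ℕ) : 0 < fa m := by
  unfold fa
  exact_mod_cast Finset.prod_pos fun i _ => Nat.factorial_pos _

lemma fa_up {d : ℕ} (m : Fin d → ℕ) (i : Fin d) : fa (up m i) = ((m i : ℝ) + 1) * fa m := by
  have h : ∏ j, (up m i j).factorial = (m i + 1) * ∏ j, (m j).factorial := by
    have h1 : ∀ j, (up m i j).factorial = (if j = i then m i + 1 else 1) * (m j).factorial := by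
      intro j
      unfold up
      rw [Function.update_apply]
      split_ifs with hj
      · rw [hj, Nat.factorial_succ]
      · rw [one_mul]
    rw [Finset.prod_congr rfl (fun j _ => h1 j), Finset.prod_mul_distrib, Finset.prod_ite_eq']
    simp
  unfold fa
  rw [h]
  push_cast
  ring

lemma rl_perm {d : ℕ} (m : Fin d → ℕ) (σ : Equiv.Perm (Fin d)) :
    rl (fun k => m (σ k)) = fun k => rl m (σ k) := rfl

lemma sum_upd {d : ℕ} (m : Fin d → ℕ) (i : Fin d) (b : ℕ) :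
    (∑ j, Function.update m i b j) + m i = b + ∑ j, m j := by
  rw [Finset.sum_update_of_mem (Finset.mem_univ i), ← Finset.sum_sdiff (Finset.subset_univ ({i} : Finset (Fin d))) (f := m),
    Finset.sum_singleton]
  ring

lemma sum_up {d : ℕ} (n : ℕ) (i : Fin d) (g : (Fin d → ℕ) → ℝ) (hg : ∀ κ, κ i = 0 → g κ = 0) :
    ∑ κ ∈ Finset.piAntidiag Finset.univ (n + 1), g κ =
      ∑ m ∈ Finset.piAntidiag Finset.univ n, g (up m i) := by
  rw [← Finset.sum_filter_of_ne (p := fun κ => κ i ≠ 0) (fun κ _ h => fun h0 => h (hg κ h0))]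
  symm
  refine Finset.sum_bij' (fun m _ => up m i) (fun κ _ => Function.update κ i (κ i - 1)) ?_ ?_ ?_ ?_ ?_
  · intro m hm
    rw [Finset.mem_piAntidiag] at hm
    rw [Finset.mem_filter, Finset.mem_piAntidiag]
    refine ⟨⟨?_, fun i _ => Finset.mem_univ i⟩, by simp [up]⟩
    have h1 := sum_upd m i (m i + 1)
    have h2 : ∑ j, m j = n := hm.1
    show ∑ j, Function.update m i (m i + 1) j = n + 1
    omega
  · intro κ hκ
    rw [Finset.mem_filter, Finset.mem_piAntidiag] at hκ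
    rw [Finset.mem_piAntidiag]
    refine ⟨?_, fun i _ => Finset.mem_univ i⟩
    have h1 := sum_upd κ i (κ i - 1)
    have h2 : ∑ j, κ j = n + 1 := hκ.1.1
    have h3 := hκ.2
    show ∑ j, Function.update κ i (κ i - 1) j = n
    omega
  · intro m _
    simp [up]
  · intro κ hκ
    rw [Finset.mem_filter] at hκ
    have h3 := hκ.2
    funext k
    by_cases hk : k = i
    · subst hk
      simp only [up, Function.update_self]
      omega
    · simp [up, hk]
  · intro m _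
    rfl

/-- `M'` -/
noncomputable def mu' {d : ℕ} (x : Fin d → ℝ) (m : Fin d → ℕ) : ℝ := ∑ i, mo x (up m i) / ((m i : ℝ) + 1)

lemma mu'_anti {d : ℕ} (x : Fin d → ℝ) (m : Fin d → ℕ) :
    ∑ σ : Equiv.Perm (Fin d), ((Equiv.Perm.sign σ : ℤ) : ℝ) * mu' x (fun k => m (σ k)) =
      ∑ i, Al (up m i) x / ((m i : ℝ) + 1) := by
  have h1 : ∀ σ : Equiv.Perm (Fin d), mu' x (fun k => m (σ k)) =
      ∑ i, mo x (fun k => up m i (σ k)) / ((m i : ℝ) + 1) := by
    intro σ
    unfold mu'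
    rw [← Equiv.sum_comp σ (fun i => mo x (fun k => up m i (σ k)) / ((m i : ℝ) + 1))]
    refine Finset.sum_congr rfl fun i _ => ?_
    rw [up_perm]
  simp_rw [h1, Al_eq, Finset.mul_sum, Finset.sum_div]
  rw [Finset.sum_comm]
  refine Finset.sum_congr rfl fun i _ => Finset.sum_congr rfl fun σ _ => ?_
  ring

theorem t_KK (hFE : S_FE) (hNN : S_NN) (hKMU : S_KMU) : S_KK := by
  intro d t x hx hpos
  obtain ⟨c, hc, h⟩ := hFE d
  obtain ⟨hF, -⟩ := h (t + 1) x
  obtain ⟨-, hG⟩ := h t x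
  have hDl : 0 < Dl x := Finset.prod_pos fun i _ => Finset.prod_pos fun j hj =>
    sub_pos.2 (hx (Finset.mem_Ioi.1 hj))
  have hct := hc (t + 1)
  have eidx : t + 1 + d.choose 2 = (t + d.choose 2) + 1 := by omega
  rw [eidx] at hF
  -- the sum over `κ`
  have hκ : ((t : ℝ) + 1) * ∑ κ ∈ Finset.piAntidiag (Finset.univ : Finset (Fin d)) (t + d.choose 2 + 1),
      Dl (rl κ) / (fa κ) ^ 2 * ∏ i, x i ^ κ i =
      ∑ m ∈ Finset.piAntidiag (Finset.univ : Finset (Fin d)) (t + d.choose 2), Dl (rl m) / (fa m) ^ 2 * mu' x m := by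
    have h1 : ∀ κ ∈ Finset.piAntidiag (Finset.univ : Finset (Fin d)) (t + d.choose 2 + 1),
        ((t : ℝ) + 1) * (Dl (rl κ) / (fa κ) ^ 2 * ∏ i, x i ^ κ i) =
        ∑ i, (rl κ i * Dl (Function.update (rl κ) i (rl κ i - 1))) / (fa κ) ^ 2 * mo x κ := by
      intro κ hκ
      rw [Finset.mem_piAntidiag] at hκ
      have h2 := (hNN d (rl κ)).2.1
      have h3 : (∑ i, rl κ i) - (d.choose 2 : ℝ) = (t : ℝ) + 1 := by
        have h4 : (∑ i, rl κ i) = ((∑ i, κ i : ℕ) : ℝ) := by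
          unfold rl
          push_cast
          rfl
        rw [h4, show ∑ i, κ i = t + d.choose 2 + 1 from hκ.1]
        push_cast
        ring
      rw [h3] at h2
      rw [← Finset.sum_mul, ← Finset.sum_div, h2]
      unfold mo
      ring
    rw [Finset.mul_sum, Finset.sum_congr rfl h1, Finset.sum_comm]
    have h2 : ∀ i : Fin d, ∑ κ ∈ Finset.piAntidiag (Finset.univ : Finset (Fin d)) (t + d.choose 2 + 1),
        (rl κ i * Dl (Function.update (rl κ) i (rl κ i - 1))) / (fa κ) ^ 2 * mo x κ =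
        ∑ m ∈ Finset.piAntidiag (Finset.univ : Finset (Fin d)) (t + d.choose 2),
          Dl (rl m) / (fa m) ^ 2 * (mo x (up m i) / ((m i : ℝ) + 1)) := by
      intro i
      rw [sum_up (t + d.choose 2) i
        (fun κ => (rl κ i * Dl (Function.update (rl κ) i (rl κ i - 1))) / (fa κ) ^ 2 * mo x κ)
        (fun κ h0 => by
          have : rl κ i = 0 := by unfold rl; rw [h0]; simp
          show (rl κ i * _) / _ * _ = 0
          rw [this]
          simp)]
      refine Finset.sum_congr rfl fun m _ => ?_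
      have e1 : rl (up m i) i = (m i : ℝ) + 1 := by simp [rl, up]
      have e2 : Function.update (rl (up m i)) i ((m i : ℝ) + 1 - 1) = rl m := by
        rw [rl_up]
        funext k
        by_cases hk : k = i
        · subst hk
          simp [rl]
        · simp [hk]
      show (rl (up m i) i * Dl (Function.update (rl (up m i)) i (rl (up m i) i - 1))) / (fa (up m i)) ^ 2 *
        mo x (up m i) = _
      rw [e1, e2, fa_up]
      have p1 : (m i : ℝ) + 1 ≠ 0 := by positivity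
      have p2 : fa m ≠ 0 := (fa_pos m).ne'
      field_simp
    rw [Finset.sum_congr rfl (fun i _ => h2 i), Finset.sum_comm]
    refine Finset.sum_congr rfl fun m _ => ?_
    rw [← Finset.mul_sum]
    rfl
  -- antisymmetrisation
  have hA1 := antisym (t + d.choose 2) (fun m : Fin d → ℕ => Dl (rl m) / (fa m) ^ 2) (mu' x) (by
    intro m σ
    show Dl (rl (fun k => m (σ k))) / (fa (fun k => m (σ k))) ^ 2 = _ * (Dl (rl m) / (fa m) ^ 2)
    rw [rl_perm, Dl_perm, fa_perm]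
    ring)
  have hA2 := antisym (t + d.choose 2)
    (fun m : Fin d → ℕ => (∑ i, Dl (rl (up m i)) / ((m i : ℝ) + 1)) / (fa m) ^ 2) (mo x) (by
    intro m σ
    show (∑ i, Dl (rl (up (fun k => m (σ k)) i)) / (((m (σ i) : ℕ) : ℝ) + 1)) / (fa (fun k => m (σ k))) ^ 2 =
      _ * ((∑ i, Dl (rl (up m i)) / ((m i : ℝ) + 1)) / (fa m) ^ 2)
    rw [fa_perm, ← Equiv.sum_comp σ (fun i => Dl (rl (up m i)) / ((m i : ℝ) + 1)), ← mul_div_assoc,
      Finset.mul_sum]
    congr 1
    refine Finset.sum_congr rfl fun i _ => ?_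
    rw [up_perm, rl_perm, Dl_perm]
    ring)
  have hterm : ∀ m : Fin d → ℕ,
      d * ((Dl (rl m) / (fa m) ^ 2) * ∑ i, Al (up m i) x / ((m i : ℝ) + 1)) ≤
      (∑ i, x i) * (((∑ i, Dl (rl (up m i)) / ((m i : ℝ) + 1)) / (fa m) ^ 2) * Al m x) := by
    intro m
    have h1 := hKMU d m x hx hpos
    have h2 : 0 < (fa m) ^ 2 := pow_pos (fa_pos m) 2
    have e1 : d * ((Dl (rl m) / (fa m) ^ 2) * ∑ i, Al (up m i) x / ((m i : ℝ) + 1)) =
        ((d * Dl (rl m)) * ∑ i, Al (up m i) x / ((m i : ℝ) + 1)) / (fa m) ^ 2 := by ring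
    have e2 : (∑ i, x i) * (((∑ i, Dl (rl (up m i)) / ((m i : ℝ) + 1)) / (fa m) ^ 2) * Al m x) =
        (((∑ i, x i) * Al m x) * ∑ i, Dl (rl (up m i)) / ((m i : ℝ) + 1)) / (fa m) ^ 2 := by ring
    rw [e1, e2]
    exact div_le_div_of_nonneg_right h1 h2.le
  have hfac : (0 : ℝ) < d.factorial := by exact_mod_cast Nat.factorial_pos d
  have hmain : (d : ℝ) * ((d.factorial : ℝ) *
        ∑ m ∈ Finset.piAntidiag (Finset.univ : Finset (Fin d)) (t + d.choose 2), Dl (rl m) / (fa m) ^ 2 * mu' x m) ≤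
      (∑ i, x i) * ((d.factorial : ℝ) * ∑ m ∈ Finset.piAntidiag (Finset.univ : Finset (Fin d)) (t + d.choose 2),
        (∑ i, Dl (rl (up m i)) / ((m i : ℝ) + 1)) / (fa m) ^ 2 * mo x m) := by
    have a1 : (d.factorial : ℝ) *
        ∑ m ∈ Finset.piAntidiag (Finset.univ : Finset (Fin d)) (t + d.choose 2), Dl (rl m) / (fa m) ^ 2 * mu' x m =
        ∑ m ∈ Finset.piAntidiag (Finset.univ : Finset (Fin d)) (t + d.choose 2),
          Dl (rl m) / (fa m) ^ 2 * ∑ i, Al (up m i) x / ((m i : ℝ) + 1) := by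
      refine hA1.symm.trans (Finset.sum_congr rfl fun m _ => ?_)
      rw [mu'_anti]
    have a2 : (d.factorial : ℝ) * ∑ m ∈ Finset.piAntidiag (Finset.univ : Finset (Fin d)) (t + d.choose 2),
        (∑ i, Dl (rl (up m i)) / ((m i : ℝ) + 1)) / (fa m) ^ 2 * mo x m =
        ∑ m ∈ Finset.piAntidiag (Finset.univ : Finset (Fin d)) (t + d.choose 2),
        (∑ i, Dl (rl (up m i)) / ((m i : ℝ) + 1)) / (fa m) ^ 2 * Al m x := by
      refine hA2.symm.trans (Finset.sum_congr rfl fun m _ => ?_)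
      rw [← Al_eq]
    rw [a1, a2, Finset.mul_sum, Finset.mul_sum]
    exact Finset.sum_le_sum fun m _ => hterm m
  -- conclusion
  have hF' : ((t : ℝ) + 1) * (Dl x * F d (t + 1) (dg x)) = c (t + 1) *
      ∑ m ∈ Finset.piAntidiag (Finset.univ : Finset (Fin d)) (t + d.choose 2), Dl (rl m) / (fa m) ^ 2 * mu' x m := by
    rw [hF, ← hκ]
    ring
  have hG' : ((t : ℝ) + 1) * (Dl x * G d (t + 1) (dg x)) = c (t + 1) *
      ∑ m ∈ Finset.piAntidiag (Finset.univ : Finset (Fin d)) (t + d.choose 2),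
        (∑ i, Dl (rl (up m i)) / ((m i : ℝ) + 1)) / (fa m) ^ 2 * mo x m := by
    have e : ((t : ℝ) + 1) * (Dl x * G d (t + 1) (dg x)) = Dl x * ((t + 1 : ℕ) * G d (t + 1) (dg x)) := by
      push_cast
      ring
    rw [e, hG]
    rfl
  have hpos2 : 0 < (d.factorial : ℝ) * (((t : ℝ) + 1) * Dl x) := by positivity
  have key : (d.factorial : ℝ) * (((t : ℝ) + 1) * Dl x) * (d * F d (t + 1) (dg x)) ≤
      (d.factorial : ℝ) * (((t : ℝ) + 1) * Dl x) * ((∑ i, x i) * G d (t + 1) (dg x)) := by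
    have e1 : (d.factorial : ℝ) * (((t : ℝ) + 1) * Dl x) * (d * F d (t + 1) (dg x)) =
        d * ((d.factorial : ℝ) * (((t : ℝ) + 1) * (Dl x * F d (t + 1) (dg x)))) := by ring
    have e2 : (d.factorial : ℝ) * (((t : ℝ) + 1) * Dl x) * ((∑ i, x i) * G d (t + 1) (dg x)) =
        (∑ i, x i) * ((d.factorial : ℝ) * (((t : ℝ) + 1) * (Dl x * G d (t + 1) (dg x)))) := by ring
    rw [e1, e2, hF', hG']
    have h3 := mul_le_mul_of_nonneg_left hmain hct.le
    refine le_trans (le_of_eq ?_) (h3.trans (le_of_eq ?_)) <;> ring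
  exact le_of_mul_le_mul_left key hpos2

end Pool.Agent.J4H5.QB
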